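import Pool.Agent.Helper61.QM.Defs

/-!
# The manifolds `M_m = (S³ × S²)/S¹` and the standard soul metrics (matrix level)
-/

set_option autoImplicit false

open Set ComplexConjugate

namespace Pool.Agent.Helper61.QM

/-- the ambient space of `S³ × S²` -/
abbrev W : Type := (ℂ × ℂ) × (ℂ × ℝ)

/-- the action of `ζ`, `‖ζ‖ = 1`, on points and (it is real linear) on tangent vectors -/
noncomputable def act (m : ℤ) (ζ : ℂ) (P : W) : W :=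
  ((ζ * P.1.1, ζ * P.1.2), (ζ ^ m * P.2.1, P.2.2))

/-- `M_m = (S³ × S²)/S¹`, `ζ • (p, (z, t)) = (ζ p, (ζ^m z, t))`: `S² × S²` for `m` even, `CP² # -CP²` for
`m` odd -/
def Mm (m : ℤ) : Model W where
  X := {P | ‖P.1.1‖ ^ 2 + ‖P.1.2‖ ^ 2 = 1 ∧ ‖P.2.1‖ ^ 2 + P.2.2 ^ 2 = 1}
  T := fun P => {u | (conj P.1.1 * u.1.1 + conj P.1.2 * u.1.2).re = 0 ∧
    (conj P.2.1 * u.2.1).re + P.2.2 * u.2.2 = 0}
  Γ := {g | ∃ ζ : ℂ, ‖ζ‖ = 1 ∧ g = act m ζ}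
  O := fun P => {u | ∃ τ : ℝ,
    u = τ • ((Complex.I * P.1.1, Complex.I * P.1.2), (Complex.I * m * P.2.1, (0 : ℝ)))}

/-- polar coordinates `(r, θ, α, β) ↦ ((cos r, e^{iα} sin r), (e^{iβ} sin θ, cos θ))` -/
noncomputable def pol (x : R4) : W :=
  (((Real.cos x.1 : ℂ), Complex.exp (x.2.2.1 * Complex.I) * Real.sin x.1),
    (Complex.exp (x.2.2.2 * Complex.I) * Real.sin x.2.1, Real.cos x.2.1))

/-- (III): the planes spanned by `∂_r` (radial, horizontal) and `∂_θ` (meridian of the fibre) are flat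
in the base metric -/
def FlatPlanes (gM : W → W → W → ℝ) : Prop :=
  ∀ x : R4, Real.sin x.1 ≠ 0 → Real.cos x.1 ≠ 0 → Real.sin x.2.1 ≠ 0 →
    IsCurv (gB gM pol) x (1, 0, 0, 0) (0, 1, 0, 0) 0

/-- the vertical part (tangent to the fibre `S²`) of a vector at `P` for the standard connection of
`M_m → S²`; `Im(conj P₁ u₁ + conj P₂ u₂)` is the connection form of `S³ → S²` -/
noncomputable def kap (m : ℤ) (P u : W) : ℂ × ℝ :=
  (u.2.1 - Complex.I * m * (conj P.1.1 * u.1.1 + conj P.1.2 * u.1.2).im * P.2.1, u.2.2)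

/-- (I) and (II): `g_M = φ(t)² H + K` where `H` is a metric of the base `S²` (pulled back to `S³`) and
`K` is a metric of the fibre, evaluated on the vertical part for the standard connection; either
`m = 0` and `φ = 1` (all products of two metrics on `S² × S²`), or `K` is rotationally symmetric (in
normalized position: the meridians are orthogonal to the parallels) and `φ > 0` is any function of the
height `t`. -/
def Standard (m : ℤ) (gM : W → W → W → ℝ) : Prop :=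
  ∃ (φ : ℝ → ℝ) (H : ℂ × ℂ → ℂ × ℂ → ℂ × ℂ → ℝ) (K : ℂ × ℝ → ℂ × ℝ → ℂ × ℝ → ℝ),
    ContDiff ℝ 3 φ ∧ (∀ t, 0 < φ t) ∧
    (∀ u u', ContDiff ℝ 3 (fun p => H p u u')) ∧ (∀ u u', ContDiff ℝ 3 (fun q => K q u u')) ∧
    (∀ p u, IsLinearMap ℝ (H p u) ∧ IsLinearMap ℝ (fun u' => H p u' u)) ∧
    (∀ q u, IsLinearMap ℝ (K q u) ∧ IsLinearMap ℝ (fun u' => K q u' u)) ∧
    (∀ P ∈ (Mm m).X, ∀ u ∈ (Mm m).T P, ∀ u' ∈ (Mm m).T P,
      gM P u u' = φ P.2.2 ^ 2 * H P.1 u.1 u'.1 + K P.2 (kap m P u) (kap m P u')) ∧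
    ((m = 0 ∧ ∀ t, φ t = 1) ∨
      ((∀ ζ : ℂ, ‖ζ‖ = 1 → ∀ q : ℂ × ℝ, ‖q.1‖ ^ 2 + q.2 ^ 2 = 1 → ∀ a b : ℂ × ℝ,
          K (ζ * q.1, q.2) (ζ * a.1, a.2) (ζ * b.1, b.2) = K q a b) ∧
        ∀ q : ℂ × ℝ, ‖q.1‖ ^ 2 + q.2 ^ 2 = 1 →
          K q (-(q.2 * q.1), 1 - q.2 ^ 2) (Complex.I * q.1, 0) = 0))

/-- the main theorem for standard souls, matrix level -/
def G_MS : Prop :=
  ∀ (n k : ℕ) (m : ℤ) (e : W → Matrix (Fin n) (Fin n) ℝ) (B : W → W → Matrix (Fin n) (Fin n) ℝ)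
    (gM : W → W → W → ℝ) (γ : W → (Fin n → ℝ) → (Fin n → ℝ) → (Fin n → ℝ) → ℝ) (ρ : ℝ),
    IsBundle (Mm m) k e B → IsBase (Mm m) gM → IsFibre (Mm m) ρ e γ → 0 < ρ →
    (Standard m gM ∨ FlatPlanes gM) → TubeSec (Mm m) k ρ e B gM γ → Splits (Mm m) e

end Pool.Agent.Helper61.QM
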