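import Mathlib

/-!
# Nonnegatively curved metrics on vector bundles: the model (matrix level)

A closed manifold `M` is given as a quotient `X/Γ` of a submanifold `X` of a normed space `WW` by a
compact group `Γ` of linear maps acting freely on `X` (`Model`); everything on `M` is written as a
`Γ`-invariant (basic) object on `X`.  All coefficients are real valued functions of class `C³`.

* a vector bundle `E → M` of rank `k` with an inner product and a metric connection (`IsBundle`): a field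
  `e P` of symmetric idempotent matrices and a skew matrix valued form `B P (dP)`; the fibre over the class
  of `P` is the range of `e P`, the covariant derivative is `dv - B v`;
* a Riemannian metric of `M` (`IsBase`), a metric along the fibres of `E` near the zero section
  (`IsFibre`);
* the metric `G = g_M(dP, dP) + γ_{(P,v)}(dv - B v, dv - B v)` of the total space near the zero
  section, written in the local trivializations `(x, w) ↦ (p x, s x w)` (`IsChart`, `Nf`, `gT`);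
* the numerator `⟨R(a,b)b,a⟩` of the sectional curvature in coordinates (`IsCurv`).
-/

set_option autoImplicit false

open Set
open scoped Matrix

namespace Pool.Agent.Helper61.QM

/-- The manifold `M = X/Γ`: the submanifold `X`, its tangent spaces `T P`, the group `Γ` (of linear maps,
so that `g` also is its own derivative), the tangent spaces `O P` of the orbits. -/
structure Model (WW : Type) where
  X : Set WW
  T : WW → Set WW
  Γ : Set (WW → WW)
  O : WW → Set WW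

section

variable {WW : Type} [NormedAddCommGroup WW] [NormedSpace ℝ WW]

/-- A vector bundle `E` of rank `k` over `M`, as a subbundle of a trivial bundle (the fibre over the class
of `P` is the range of the orthogonal projection `e P`), with a connection `∇ v = dv - B v` preserving
the inner product. -/
structure IsBundle (M : Model WW) (k : ℕ) {n : ℕ} (e : WW → Matrix (Fin n) (Fin n) ℝ)
    (B : WW → WW → Matrix (Fin n) (Fin n) ℝ) : Prop where
  smooth_e : ∀ i j, ContDiff ℝ 3 (fun P => e P i j)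
  smooth_B : ∀ u i j, ContDiff ℝ 3 (fun P => B P u i j)
  linear_B : ∀ P, IsLinearMap ℝ (B P)
  idem : ∀ P ∈ M.X, e P * e P = e P
  symm : ∀ P ∈ M.X, (e P)ᵀ = e P
  rank : ∀ P ∈ M.X, (e P).rank = k
  inv : ∀ g ∈ M.Γ, ∀ P ∈ M.X, e (g P) = e P
  skew : ∀ P ∈ M.X, ∀ u ∈ M.T P, (B P u)ᵀ = -B P u
  par : ∀ P ∈ M.X, ∀ u ∈ M.T P, ∀ i j,
    fderiv ℝ (fun Q => e Q i j) P u = (B P u * e P - e P * B P u) i j
  inv_B : ∀ g ∈ M.Γ, ∀ P ∈ M.X, ∀ u ∈ M.T P, B (g P) (g u) = B P u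
  horiz : ∀ P ∈ M.X, ∀ u ∈ M.O P, B P u = 0

/-- A Riemannian metric of `M`, pulled back to `X`. -/
structure IsBase (M : Model WW) (gM : WW → WW → WW → ℝ) : Prop where
  smooth : ∀ u u', ContDiff ℝ 3 (fun P => gM P u u')
  linear : ∀ P u, IsLinearMap ℝ (gM P u) ∧ IsLinearMap ℝ (fun u' => gM P u' u)
  symm : ∀ P ∈ M.X, ∀ u ∈ M.T P, ∀ u' ∈ M.T P, gM P u u' = gM P u' u
  inv : ∀ g ∈ M.Γ, ∀ P ∈ M.X, ∀ u ∈ M.T P, ∀ u' ∈ M.T P, gM (g P) (g u) (g u') = gM P u u'
  horiz : ∀ P ∈ M.X, ∀ o ∈ M.O P, ∀ u ∈ M.T P, gM P o u = 0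
  pos : ∀ P ∈ M.X, ∀ u ∈ M.T P, u ∉ M.O P → 0 < gM P u u

/-- A Riemannian metric along the fibres of `E`, at the points `v` with `|v| < ρ`. -/
structure IsFibre (M : Model WW) (ρ : ℝ) {n : ℕ} (e : WW → Matrix (Fin n) (Fin n) ℝ)
    (γ : WW → (Fin n → ℝ) → (Fin n → ℝ) → (Fin n → ℝ) → ℝ) : Prop where
  smooth : ∀ a b, ContDiff ℝ 3 (fun z : WW × (Fin n → ℝ) => γ z.1 z.2 a b)
  linear : ∀ P v a, IsLinearMap ℝ (γ P v a) ∧ IsLinearMap ℝ (fun b => γ P v b a)
  symm : ∀ P ∈ M.X, ∀ v, e P *ᵥ v = v → v ⬝ᵥ v < ρ ^ 2 →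
    ∀ a b, e P *ᵥ a = a → e P *ᵥ b = b → γ P v a b = γ P v b a
  pos : ∀ P ∈ M.X, ∀ v, e P *ᵥ v = v → v ⬝ᵥ v < ρ ^ 2 →
    ∀ a, e P *ᵥ a = a → a ≠ 0 → 0 < γ P v a a
  inv : ∀ g ∈ M.Γ, ∀ P ∈ M.X, ∀ v, e P *ᵥ v = v → v ⬝ᵥ v < ρ ^ 2 →
    ∀ a b, e P *ᵥ a = a → e P *ᵥ b = b → γ (g P) v a b = γ P v a b

/-- coordinates of the base -/
abbrev R4 : Type := ℝ × ℝ × ℝ × ℝ

/-- A local trivialization over a chart: `p : U → X` is transversal to the orbits (so that it induces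
a chart of the four-manifold `M`) and `s x` is an isomorphism of `ℝᵏ` onto the fibre over `p x`. -/
structure IsChart (M : Model WW) (k : ℕ) {n : ℕ} (e : WW → Matrix (Fin n) (Fin n) ℝ) (U : Set R4)
    (p : R4 → WW) (s : R4 → Matrix (Fin n) (Fin k) ℝ) : Prop where
  isOpen : IsOpen U
  smooth_p : ContDiffOn ℝ 3 p U
  smooth_s : ∀ i j, ContDiffOn ℝ 3 (fun x => s x i j) U
  mem : ∀ x ∈ U, p x ∈ M.X
  trans : ∀ x ∈ U, ∀ c : R4, fderiv ℝ p x c ∈ M.O (p x) → c = 0
  inj : ∀ x ∈ U, ∀ w : Fin k → ℝ, s x *ᵥ w = 0 → w = 0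
  range : ∀ x ∈ U, ∀ v : Fin n → ℝ, e (p x) *ᵥ v = v ↔ ∃ w : Fin k → ℝ, s x *ᵥ w = v

/-- the covariant differential of `v = s x w` at `(x, w)`, applied to the tangent vector `(a, b)`:
`(Ds a) w + s b - B(p x)(Dp a) (s x w)` -/
noncomputable def Nf {n k : ℕ} (B : WW → WW → Matrix (Fin n) (Fin n) ℝ) (p : R4 → WW)
    (s : R4 → Matrix (Fin n) (Fin k) ℝ) (x : R4) (w : Fin k → ℝ) (a : R4) (b : Fin k → ℝ) :
    Fin n → ℝ :=
  (Matrix.of fun i j => fderiv ℝ (fun y => s y i j) x a) *ᵥ w + s x *ᵥ b -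
    B (p x) (fderiv ℝ p x a) *ᵥ (s x *ᵥ w)

/-- the metric of the base in the chart `p` -/
noncomputable def gB (gM : WW → WW → WW → ℝ) (p : R4 → WW) (x a a' : R4) : ℝ :=
  gM (p x) (fderiv ℝ p x a) (fderiv ℝ p x a')

/-- the metric of the total space in the local trivialization `(x, w) ↦ (p x, s x w)` -/
noncomputable def gT {n k : ℕ} (gM : WW → WW → WW → ℝ)
    (γ : WW → (Fin n → ℝ) → (Fin n → ℝ) → (Fin n → ℝ) → ℝ)
    (B : WW → WW → Matrix (Fin n) (Fin n) ℝ) (p : R4 → WW) (s : R4 → Matrix (Fin n) (Fin k) ℝ)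
    (z h h' : R4 × (Fin k → ℝ)) : ℝ :=
  gB gM p z.1 h.1 h'.1 +
    γ (p z.1) (s z.1 *ᵥ z.2) (Nf B p s z.1 z.2 h.1 h.2) (Nf B p s z.1 z.2 h'.1 h'.2)

end

section curvature

variable {F : Type} [NormedAddCommGroup F] [NormedSpace ℝ F]

/-- the Christoffel symbols of the first kind, `g(∇_a b, c) = (∂_a g(b,c) + ∂_b g(a,c) - ∂_c g(a,b)) / 2`
for constant fields `a, b, c` -/
noncomputable def Gam (g : F → F → F → ℝ) (z a b c : F) : ℝ :=
  (fderiv ℝ (fun y => g y b c) z a + fderiv ℝ (fun y => g y a c) z b -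
    fderiv ℝ (fun y => g y a b) z c) / 2

/-- the second derivative `∂_a ∂_b f` at `z` -/
noncomputable def dd (f : F → ℝ) (z a b : F) : ℝ := fderiv ℝ (fun y => fderiv ℝ f y b) z a

/-- `K = g(R(a,b)b, a)`: `K` is the numerator of the sectional curvature of the plane of `a, b` of the
metric `g` at `z`; `cab = ∇_a b` etc., and
`K = -(∂_a∂_a g(b,b) + ∂_b∂_b g(a,a) - 2 ∂_a∂_b g(a,b))/2 + g(∇_a b, ∇_a b) - g(∇_a a, ∇_b b)` -/
def IsCurv (g : F → F → F → ℝ) (z a b : F) (K : ℝ) : Prop :=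
  ∃ cab caa cbb : F, (∀ x, g z cab x = Gam g z a b x) ∧ (∀ x, g z caa x = Gam g z a a x) ∧
    (∀ x, g z cbb x = Gam g z b b x) ∧
    K = -(dd (fun y => g y b b) z a a + dd (fun y => g y a a) z b b -
        2 * dd (fun y => g y a b) z a b) / 2 + g z cab cab - g z caa cbb

end curvature

section

variable {WW : Type} [NormedAddCommGroup WW] [NormedSpace ℝ WW]

/-- The metric `G` has nonnegative sectional curvature on the tube `|v| < ρ`: in every local
trivialization all numerators are nonnegative. -/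
def TubeSec (M : Model WW) (k : ℕ) (ρ : ℝ) {n : ℕ} (e : WW → Matrix (Fin n) (Fin n) ℝ)
    (B : WW → WW → Matrix (Fin n) (Fin n) ℝ) (gM : WW → WW → WW → ℝ)
    (γ : WW → (Fin n → ℝ) → (Fin n → ℝ) → (Fin n → ℝ) → ℝ) : Prop :=
  ∀ (U : Set R4) (p : R4 → WW) (s : R4 → Matrix (Fin n) (Fin k) ℝ), IsChart M k e U p s →
    ∀ x ∈ U, ∀ w : Fin k → ℝ, (s x *ᵥ w) ⬝ᵥ (s x *ᵥ w) < ρ ^ 2 →
      ∀ a b K, IsCurv (gT gM γ B p s) (x, w) a b K → 0 ≤ K

/-- The bundle is the orthogonal sum of continuous subbundles, all of rank 2 except possibly one (with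
index 0) of rank 1; i.e. its structure group reduces to a torus. -/
def Splits (M : Model WW) {n : ℕ} (e : WW → Matrix (Fin n) (Fin n) ℝ) : Prop :=
  ∃ (N : ℕ) (f : Fin N → WW → Matrix (Fin n) (Fin n) ℝ),
    (∀ j, ContinuousOn (f j) M.X) ∧
    (∀ j, ∀ g ∈ M.Γ, ∀ P ∈ M.X, f j (g P) = f j P) ∧
    (∀ j, ∀ P ∈ M.X, f j P * f j P = f j P ∧ (f j P)ᵀ = f j P ∧
      ((f j P).rank = 2 ∨ ((f j P).rank = 1 ∧ j.val = 0))) ∧
    (∀ i j, i ≠ j → ∀ P ∈ M.X, f i P * f j P = 0) ∧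
    ∀ P ∈ M.X, ∑ j, f j P = e P

end

end Pool.Agent.Helper61.QM
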