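import Pool.Agent.Helper61.QM.StmtS

/-!
# The manifolds `M_m = (S³ × S²)/S¹`: products, metrics of Kaluza-Klein type, twisted polar coordinates
(matrix level)
-/

set_option autoImplicit false

open Set ComplexConjugate

namespace Pool.Agent.Helper61.QM

/-- the vertical part (tangent to the fibre `S²`) of a vector at `P` for a connection `μ` of
`M_m → S²` -/
noncomputable def kapL (μ : ℂ × ℂ → ℂ × ℂ → ℝ) (P u : W) : ℂ × ℝ :=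
  (u.2.1 - Complex.I * μ P.1 u.1 * P.2.1, u.2.2)

/-- the meridian vector of the fibre at `P` -/
def mer (P : W) : ℂ × ℝ := (-(P.2.2 * P.2.1), 1 - P.2.2 ^ 2)

/-- Kaluza-Klein type: `g_M = φ(t)² H + K` where `φ > 0` is a function of the height `t`, `H` a metric of
the base `S²` (pulled back to `S³`), and `K` a metric of the fibres `S²`, which may depend on all
variables, evaluated on the vertical parts for a connection `μ`; the meridians are orthogonal to the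
parallels and their speed depends on the height only. -/
def KK (gM : W → W → W → ℝ) : Prop :=
  ∃ (φ : ℝ → ℝ) (H : ℂ × ℂ → ℂ × ℂ → ℂ × ℂ → ℝ) (K : W → ℂ × ℝ → ℂ × ℝ → ℝ)
    (μ : ℂ × ℂ → ℂ × ℂ → ℝ),
    ContDiff ℝ 3 φ ∧ (∀ t, 0 < φ t) ∧
    (∀ u u', ContDiff ℝ 3 (fun p => H p u u')) ∧ (∀ v v', ContDiff ℝ 3 (fun P => K P v v')) ∧
    (∀ u, ContDiff ℝ 3 (fun p => μ p u)) ∧
    (∀ p u, IsLinearMap ℝ (H p u) ∧ IsLinearMap ℝ (fun u' => H p u' u)) ∧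
    (∀ P v, IsLinearMap ℝ (K P v) ∧ IsLinearMap ℝ (fun v' => K P v' v)) ∧
    (∀ p, IsLinearMap ℝ (μ p)) ∧
    (∀ P ∈ (Mm 0).X, ∀ u ∈ (Mm 0).T P, ∀ u' ∈ (Mm 0).T P,
      gM P u u' = φ P.2.2 ^ 2 * H P.1 u.1 u'.1 + K P (kapL μ P u) (kapL μ P u')) ∧
    (∀ P ∈ (Mm 0).X, K P (mer P) (Complex.I * P.2.1, 0) = 0) ∧
    ∀ P ∈ (Mm 0).X, ∀ P' ∈ (Mm 0).X, P.2.2 = P'.2.2 →
      K P (mer P) (mer P) = K P' (mer P') (mer P')

/-- a product of two metrics on `S² × S²` (for `m = 0`) -/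
def IsProd (gM : W → W → W → ℝ) : Prop :=
  ∃ (H : ℂ × ℂ → ℂ × ℂ → ℂ × ℂ → ℝ) (K : ℂ × ℝ → ℂ × ℝ → ℂ × ℝ → ℝ),
    (∀ u u', ContDiff ℝ 3 (fun p => H p u u')) ∧ (∀ u u', ContDiff ℝ 3 (fun q => K q u u')) ∧
    (∀ p u, IsLinearMap ℝ (H p u) ∧ IsLinearMap ℝ (fun u' => H p u' u)) ∧
    (∀ q u, IsLinearMap ℝ (K q u) ∧ IsLinearMap ℝ (fun u' => K q u' u)) ∧
    ∀ P ∈ (Mm 0).X, ∀ u ∈ (Mm 0).T P, ∀ u' ∈ (Mm 0).T P,
      gM P u u' = H P.1 u.1 u'.1 + K P.2 u.2 u'.2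

/-- the planes spanned by `∂_r` and `∂_θ` are flat in the base metric, for some twisted polar
coordinates `(r, θ, α, β) ↦ ((cos r, e^{iα} sin r), (e^{i(β + Λ(r,α))} sin θ, cos θ))` -/
def FlatTw (gM : W → W → W → ℝ) : Prop :=
  ∃ Λ : ℝ × ℝ → ℝ, ContDiff ℝ 3 Λ ∧ (∀ r α, Λ (r, α + 2 * Real.pi) = Λ (r, α)) ∧
    (∀ α, Λ (0, α) = 0) ∧
    ∀ x : R4, Real.sin x.1 ≠ 0 → Real.cos x.1 ≠ 0 → Real.sin x.2.1 ≠ 0 →
      IsCurv (gB gM (fun y => pol (y.1, y.2.1, y.2.2.1, y.2.2.2 + Λ (y.1, y.2.2.1)))) x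
        (1, 0, 0, 0) (0, 1, 0, 0) 0

/-- the main theorem, matrix level -/
def G_ML : Prop :=
  ∀ (n k : ℕ) (m : ℤ) (e : W → Matrix (Fin n) (Fin n) ℝ) (B : W → W → Matrix (Fin n) (Fin n) ℝ)
    (gM : W → W → W → ℝ) (γ : W → (Fin n → ℝ) → (Fin n → ℝ) → (Fin n → ℝ) → ℝ) (ρ : ℝ),
    IsBundle (Mm m) k e B → IsBase (Mm m) gM → IsFibre (Mm m) ρ e γ → 0 < ρ →
    ((m = 0 ∧ IsProd gM) ∨ KK gM ∨ FlatTw gM) → TubeSec (Mm m) k ρ e B gM γ → Splits (Mm m) e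

end Pool.Agent.Helper61.QM
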