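import Pool.Agent.Helper61.QM.StmtT

/-!
# All torus-invariant soul metrics of the manifolds `M_{a,b}` (matrix level)
-/

set_option autoImplicit false

open Set ComplexConjugate

namespace Pool.Agent.Helper61.QM

/-- The metric is invariant under the rotations of the four coordinates, i.e. under the (effective)
action of the torus `T⁴/T²` on `M_{a,b} = (S³ × S³)/T²`. -/
def IsRot (gM : W2 → W2 → W2 → ℝ) : Prop :=
  ∀ c : W2, ‖c.1.1‖ = 1 → ‖c.1.2‖ = 1 → ‖c.2.1‖ = 1 → ‖c.2.2‖ = 1 →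
    ∀ P ∈ (Mab 0 0).X, ∀ u ∈ (Mab 0 0).T P, ∀ u' ∈ (Mab 0 0).T P,
      gM (rot c P) (rot c u) (rot c u') = gM P u u'

/-- the main theorem for torus-invariant souls, matrix level -/
def G_MP : Prop :=
  ∀ (n k : ℕ) (a b : ℤ) (e : W2 → Matrix (Fin n) (Fin n) ℝ)
    (B : W2 → W2 → Matrix (Fin n) (Fin n) ℝ)
    (gM : W2 → W2 → W2 → ℝ) (γ : W2 → (Fin n → ℝ) → (Fin n → ℝ) → (Fin n → ℝ) → ℝ) (ρ : ℝ),
    b = 0 ∨ (a = 1 ∧ b = 2) → IsBundle (Mab a b) k e B → IsBase (Mab a b) gM →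
    IsFibre (Mab a b) ρ e γ → 0 < ρ → IsRot gM →
    TubeSec (Mab a b) k ρ e B gM γ → Splits (Mab a b) e

end Pool.Agent.Helper61.QM
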