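import Pool.Agent.Helper61.QM.Defs

/-!
# The manifolds `M_{a,b} = (S³ × S³)/T²` and torus-invariant soul metrics (matrix level)
-/

set_option autoImplicit false

open Set ComplexConjugate

namespace Pool.Agent.Helper61.QM

/-- the ambient space of `S³ × S³` -/
abbrev W2 : Type := (ℂ × ℂ) × (ℂ × ℂ)

/-- the action of `(ζ, ω)`, `‖ζ‖ = ‖ω‖ = 1`, on points and on tangent vectors -/
noncomputable def act2 (a b : ℤ) (ζ ω : ℂ) (P : W2) : W2 :=
  ((ζ * ω ^ b * P.1.1, ζ * P.1.2), (ζ ^ a * ω * P.2.1, ω * P.2.2))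

/-- the first generator of the action at `P` -/
noncomputable def o1 (a : ℤ) (P : W2) : W2 :=
  ((Complex.I * P.1.1, Complex.I * P.1.2), (Complex.I * a * P.2.1, 0))

/-- the second generator of the action at `P` -/
noncomputable def o2 (b : ℤ) (P : W2) : W2 :=
  ((Complex.I * b * P.1.1, 0), (Complex.I * P.2.1, Complex.I * P.2.2))

/-- `M_{a,b} = (S³ × S³)/T²`, `(ζ,ω) • (x, y) = ((ζ ω^b x₁, ζ x₂), (ζ^a ω y₁, ω y₂))`, a manifold if
`1 - ab = ±1`.  `b = 0`: the `S²`-bundles over `S²` (`S² × S²` for `a` even, `CP² # -CP²` for `a` odd);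
`(a,b) = (1,2)`: `CP² # CP²`. -/
def Mab (a b : ℤ) : Model W2 where
  X := {P | ‖P.1.1‖ ^ 2 + ‖P.1.2‖ ^ 2 = 1 ∧ ‖P.2.1‖ ^ 2 + ‖P.2.2‖ ^ 2 = 1}
  T := fun P => {u | (conj P.1.1 * u.1.1 + conj P.1.2 * u.1.2).re = 0 ∧
    (conj P.2.1 * u.2.1 + conj P.2.2 * u.2.2).re = 0}
  Γ := {g | ∃ ζ ω : ℂ, ‖ζ‖ = 1 ∧ ‖ω‖ = 1 ∧ g = act2 a b ζ ω}
  O := fun P => {u | ∃ σ τ : ℝ, u = σ • o1 a P + τ • o2 b P}

/-- rotation of the four coordinates; these rotations induce an effective action of `T⁴/T² = T²` on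
`M_{a,b}` -/
noncomputable def rot (c P : W2) : W2 :=
  ((c.1.1 * P.1.1, c.1.2 * P.1.2), (c.2.1 * P.2.1, c.2.2 * P.2.2))

/-- all coordinates are real -/
def IsRe (P : W2) : Prop := P.1.1.im = 0 ∧ P.1.2.im = 0 ∧ P.2.1.im = 0 ∧ P.2.2.im = 0

/-- all coordinates are imaginary -/
def IsIm (P : W2) : Prop := P.1.1.re = 0 ∧ P.1.2.re = 0 ∧ P.2.1.re = 0 ∧ P.2.2.re = 0

/-- The metric is invariant under the torus of rotations of the four coordinates, and at real points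
the real tangent vectors are orthogonal to the imaginary ones (this holds for instance if complex
conjugation is an isometry): the orbits of the torus are orthogonal to the real points. -/
structure IsToric (gM : W2 → W2 → W2 → ℝ) : Prop where
  rot : ∀ c : W2, ‖c.1.1‖ = 1 → ‖c.1.2‖ = 1 → ‖c.2.1‖ = 1 → ‖c.2.2‖ = 1 →
    ∀ P ∈ (Mab 0 0).X, ∀ u ∈ (Mab 0 0).T P, ∀ u' ∈ (Mab 0 0).T P,
      gM (rot c P) (rot c u) (rot c u') = gM P u u'
  polar : ∀ P ∈ (Mab 0 0).X, ∀ u ∈ (Mab 0 0).T P, ∀ v, IsRe P → IsRe u → IsIm v → gM P u v = 0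

/-- polar coordinates `(r, s, α, β) ↦ ((cos r, e^{iα} sin r), (cos s, e^{iβ} sin s))` -/
noncomputable def pol2 (x : R4) : W2 :=
  (((Real.cos x.1 : ℂ), Complex.exp (x.2.2.1 * Complex.I) * Real.sin x.1),
    ((Real.cos x.2.1 : ℂ), Complex.exp (x.2.2.2 * Complex.I) * Real.sin x.2.1))

/-- the planes spanned by `∂_r` and `∂_s` are flat in the base metric -/
def FlatPlanes2 (gM : W2 → W2 → W2 → ℝ) : Prop :=
  ∀ x : R4, Real.sin x.1 ≠ 0 → Real.cos x.1 ≠ 0 → Real.sin x.2.1 ≠ 0 → Real.cos x.2.1 ≠ 0 →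
    IsCurv (gB gM pol2) x (1, 0, 0, 0) (0, 1, 0, 0) 0

/-- the main theorem for torus-invariant souls, matrix level -/
def G_MT : Prop :=
  ∀ (n k : ℕ) (a b : ℤ) (e : W2 → Matrix (Fin n) (Fin n) ℝ)
    (B : W2 → W2 → Matrix (Fin n) (Fin n) ℝ)
    (gM : W2 → W2 → W2 → ℝ) (γ : W2 → (Fin n → ℝ) → (Fin n → ℝ) → (Fin n → ℝ) → ℝ) (ρ : ℝ),
    b = 0 ∨ (a = 1 ∧ b = 2) → IsBundle (Mab a b) k e B → IsBase (Mab a b) gM →
    IsFibre (Mab a b) ρ e γ → 0 < ρ → (IsToric gM ∨ FlatPlanes2 gM) →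
    TubeSec (Mab a b) k ρ e B gM γ → Splits (Mab a b) e

end Pool.Agent.Helper61.QM
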